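import Mathlib

/-!
# Squarefree words with small initial non-repetitive complexity: the inductive step
-/

set_option autoImplicit false

namespace Pool.Agent.V11120.Rul

/-- truncated exponent of two -/
def P (k x : ℕ) : ℕ := min (padicValNat 2 x) k

theorem P_le (k x : ℕ) : P k x ≤ k := min_le_right _ _

theorem le_P {k x h : ℕ} (hx : 0 < x) (hh : h ≤ k) : h ≤ P k x ↔ 2 ^ h ∣ x := by
  rw [P, le_min_iff, padicValNat_dvd_iff_le hx.ne']
  exact ⟨fun h' => h'.1, fun h' => ⟨h', hh⟩⟩

theorem P_eq {k a b : ℕ} (ha : 0 < a) (hb : 0 < b) (h : ∀ h ≤ k, (2 ^ h ∣ a ↔ 2 ^ h ∣ b)) :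
    P k a = P k b := by
  apply le_antisymm
  · rw [le_P hb (P_le _ _), ← h _ (P_le _ _), ← le_P ha (P_le _ _)]
  · rw [le_P ha (P_le _ _), h _ (P_le _ _), ← le_P hb (P_le _ _)]

theorem P_ne {k a b h : ℕ} (ha : 0 < a) (hb : 0 < b) (hh : h ≤ k) (h1 : 2 ^ h ∣ a)
    (h2 : ¬ 2 ^ h ∣ b) : P k a ≠ P k b := by
  intro he
  apply h2
  rw [← le_P hb hh, ← he, le_P ha hh]
  exact h1

theorem P_eq_of_add {k a b : ℕ} (ha : 0 < a) (hb : 0 < b) (h : 2 ^ k ∣ a + b) :
    P k a = P k b := by
  apply P_eq ha hb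
  intro h' hh
  exact (Nat.dvd_add_iff_right_iff_dvd_left ((pow_dvd_pow 2 hh).trans h))
where
  Nat.dvd_add_iff_right_iff_dvd_left {d a b : ℕ} (h : d ∣ a + b) : d ∣ a ↔ d ∣ b := by
    constructor
    · intro h1
      exact (Nat.dvd_add_right h1).1 h
    · intro h1
      exact (Nat.dvd_add_left h1).1 h

theorem P_eq_of_add' {k h a b : ℕ} (ha : 0 < a) (hb : 0 < b) (h0 : 2 ^ h ∣ a + b)
    (h1 : ¬ 2 ^ h ∣ a) : P k a = P k b := by
  apply P_eq ha hb
  have key : ∀ {d : ℕ}, d ∣ a + b → (d ∣ a ↔ d ∣ b) := by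
    intro d h
    constructor
    · intro h1
      exact (Nat.dvd_add_right h1).1 h
    · intro h1
      exact (Nat.dvd_add_left h1).1 h
  intro h' _
  rcases le_total h' h with h2 | h2
  · exact key ((pow_dvd_pow 2 h2).trans h0)
  · constructor
    · intro h3
      exact absurd ((pow_dvd_pow 2 h2).trans h3) h1
    · intro h3
      exact absurd ((key h0).2 ((pow_dvd_pow 2 h2).trans h3)) h1

theorem P_shift {k a c : ℕ} (ha : 0 < a) (h : 2 ^ k ∣ c) : P k (c + a) = P k a := by
  apply P_eq (by omega) ha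
  intro h' hh
  exact (Nat.dvd_add_right ((pow_dvd_pow 2 hh).trans h))

theorem P_shift' {k h a c : ℕ} (ha : 0 < a) (h0 : 2 ^ h ∣ c) (h1 : ¬ 2 ^ h ∣ a) :
    P k (c + a) = P k a := by
  apply P_eq (by omega) ha
  intro h' _
  rcases le_total h' h with h2 | h2
  · exact (Nat.dvd_add_right ((pow_dvd_pow 2 h2).trans h0))
  · constructor
    · intro h3
      exact absurd ((Nat.dvd_add_right h0).1 ((pow_dvd_pow 2 h2).trans h3)) h1
    · intro h3
      exact absurd ((pow_dvd_pow 2 h2).trans h3) h1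

theorem P_exact {k h a : ℕ} (ha : 0 < a) (hk : h < k) (h0 : 2 ^ h ∣ a) (h1 : ¬ 2 ^ (h + 1) ∣ a) :
    P k a = h := by
  apply le_antisymm
  · by_contra hc
    push Not at hc
    exact h1 ((le_P ha hk).1 hc)
  · exact (le_P ha hk.le).2 h0

theorem val_pow (k : ℕ) : padicValNat 2 (2 ^ k) = k := by
  rw [padicValNat.prime_pow]

theorem P_of_lt {k x : ℕ} (hx : 0 < x) (h : x < 2 ^ (k + 1)) : P k x = padicValNat 2 x := by
  rw [P, min_eq_left]
  by_contra hc
  push Not at hc
  have := (padicValNat_dvd_iff_le (p := 2) (n := k + 1) hx.ne').2 hc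
  exact absurd (Nat.le_of_dvd hx this) (by omega)

/-- if the sum of two multiples of `2^h` is not a multiple of `2^(h+1)`, exactly one of them is -/
theorem split {h a b : ℕ} (ha : 2 ^ h ∣ a) (hb : 2 ^ h ∣ b) (hab : ¬ 2 ^ (h + 1) ∣ a + b) :
    (2 ^ (h + 1) ∣ a ∧ ¬ 2 ^ (h + 1) ∣ b) ∨ (¬ 2 ^ (h + 1) ∣ a ∧ 2 ^ (h + 1) ∣ b) := by
  by_cases h1 : 2 ^ (h + 1) ∣ a
  · left
    refine ⟨h1, fun h2 => hab (dvd_add h1 h2)⟩
  · right
    refine ⟨h1, ?_⟩
    obtain ⟨c, rfl⟩ := ha
    obtain ⟨d, rfl⟩ := hb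
    rw [pow_succ] at *
    rw [Nat.mul_dvd_mul_iff_left (by positivity)] at *
    rw [← mul_add, Nat.mul_dvd_mul_iff_left (by positivity)] at hab
    omega

/-- the sum of two multiples of `2^h` that are no multiples of `2^(h+1)` -/
theorem both {h a b : ℕ} (ha : 2 ^ h ∣ a) (hb : 2 ^ h ∣ b) (ha' : ¬ 2 ^ (h + 1) ∣ a)
    (hb' : ¬ 2 ^ (h + 1) ∣ b) : 2 ^ (h + 1) ∣ a + b := by
  obtain ⟨c, rfl⟩ := ha
  obtain ⟨d, rfl⟩ := hb
  rw [pow_succ] at *
  rw [Nat.mul_dvd_mul_iff_left (by positivity)] at *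
  rw [← mul_add, Nat.mul_dvd_mul_iff_left (by positivity)]
  omega

/-- there is a maximal power of two -/
theorem exists_h {k s : ℕ} (hs : ¬ 2 ^ k ∣ s) : ∃ h < k, 2 ^ h ∣ s ∧ ¬ 2 ^ (h + 1) ∣ s := by
  induction k with
  | zero => simp at hs
  | succ k ih =>
    by_cases h : 2 ^ k ∣ s
    · exact ⟨k, by omega, h, hs⟩
    · obtain ⟨h', h1, h2⟩ := ih h
      exact ⟨h', by omega, h2⟩

/-- next multiple -/
theorem next_mult {B : ℕ} (hB : 0 < B) (s c : ℕ) : ∃ w, s ≤ w ∧ w < s + B ∧ B ∣ w + c ∧
    ∀ x, s ≤ x → x < w → ¬ B ∣ x + c := by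
  have hex : ∃ w, s ≤ w ∧ B ∣ w + c := by
    refine ⟨s + (B - (s + c) % B) % B, by omega, ?_⟩
    apply Nat.dvd_of_mod_eq_zero
    have h1 := Nat.mod_lt (s + c) hB
    rcases Nat.eq_zero_or_pos ((s + c) % B) with h0 | h0
    · rw [h0]
      simp [h0]
    · rw [Nat.mod_eq_of_lt (show B - (s + c) % B < B by omega)]
      have h2 := Nat.div_add_mod (s + c) B
      have h3 : s + (B - (s + c) % B) + c = B * ((s + c) / B) + B := by omega
      rw [h3]
      simp
  classical
  refine ⟨Nat.find hex, (Nat.find_spec hex).1, ?_, (Nat.find_spec hex).2, ?_⟩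
  · by_contra hc
    push Not at hc
    have h1 := (Nat.find_spec hex).2
    have h2 : s ≤ Nat.find hex - B ∧ B ∣ Nat.find hex - B + c := by
      refine ⟨by omega, ?_⟩
      have : Nat.find hex - B + c = (Nat.find hex + c) - B := by omega
      rw [this]
      exact Nat.dvd_sub h1 (dvd_refl B)
    have := Nat.find_min' hex h2
    omega
  · intro x h1 h2 h3
    exact Nat.find_min hex h2 ⟨h1, h3⟩

/-- data of the inductive step -/
structure Ctx {α : Type*} (y : ℕ → α) (k : ℕ) (L : ℕ → α) : Prop where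
  sq : ∀ i p, 0 < p → ∃ u < p, y (i + u) ≠ y (i + p + u)
  rep : ∀ n, 0 < n → ∃ i j, i < j ∧ j ≤ 2 * n ∧ ∀ u < n, y (i + u) = y (j + u)
  inj : ∀ a ≤ k + 1, ∀ b ≤ k + 1, L a = L b → a = b
  hy : ∀ x < 2 * 2 ^ k, y x = L (padicValNat 2 (x + 1))

section
variable {α : Type*} {y : ℕ → α} {k : ℕ} {L : ℕ → α}

theorem Ctx.hP (C : Ctx y k L) (x : ℕ) (hx : x + 1 < 2 * 2 ^ k) : y x = L (P k (x + 1)) := by
  rw [C.hy x (by omega), P_of_lt (by omega) (by rw [pow_succ]; omega)]

theorem Ctx.he (C : Ctx y k L) : y (2 * 2 ^ k - 1) = L (k + 1) := by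
  have h : 0 < 2 ^ k := by positivity
  rw [C.hy _ (by omega), show 2 * 2 ^ k - 1 + 1 = 2 ^ (k + 1) by rw [pow_succ]; omega, val_pow]

theorem Ctx.ne (C : Ctx y k L) {a b : ℕ} (h : P k a ≠ P k b) : L (P k a) ≠ L (P k b) := by
  intro he
  exact h (C.inj _ (by have := P_le k a; omega) _ (by have := P_le k b; omega) he)

theorem Ctx.ne' (C : Ctx y k L) {a : ℕ} : L (P k a) ≠ L (k + 1) := by
  intro he
  have := C.inj _ (by have := P_le k a; omega) _ le_rfl he
  have := P_le k a
  omega

/-- the two shapes of a constraint -/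
theorem Ctx.constraint (C : Ctx y k L) (m : ℕ) (hm : m < 2 ^ k) :
    (∃ t i, t ≤ 2 * m ∧ i + m + 1 ≤ 2 ^ k ∧
      ∀ u < 2 ^ k + m, y (2 * 2 ^ k + (t + u)) = L (P k (i + 1 + u))) ∨
    (∃ s q, 0 < s ∧ s ≤ 2 * m ∧ 2 ^ k + m ≤ q ∧ q < s + 2 * 2 ^ k ∧
      y (2 * 2 ^ k + q) = L (k + 1) ∧
      ∀ x, s ≤ x → x < q → y (2 * 2 ^ k + x) = L (P k (q - x))) := by
  obtain ⟨i, j, hij, hj, hrep⟩ := C.rep (2 ^ k + m) (by positivity)
  have hN : 0 < 2 ^ k := by positivity
  have hgap : i + (2 ^ k + m) + 1 ≤ j := by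
    by_contra hc
    push Not at hc
    obtain ⟨u, hu, hne⟩ := C.sq i (j - i) (by omega)
    apply hne
    rw [hrep u (by omega)]
    congr 1
    omega
  rcases Nat.lt_or_ge (i + (2 ^ k + m)) (2 * 2 ^ k) with h1 | h1
  · left
    have hj2 : 2 * 2 ^ k ≤ j := by
      by_contra hc
      push Not at hc
      have h2 := hrep (2 * 2 ^ k - 1 - j) (by omega)
      rw [show j + (2 * 2 ^ k - 1 - j) = 2 * 2 ^ k - 1 by omega, C.he, C.hP _ (by omega)] at h2
      exact C.ne' h2
    refine ⟨j - 2 * 2 ^ k, i, by omega, by omega, ?_⟩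
    intro u hu
    rw [show 2 * 2 ^ k + (j - 2 * 2 ^ k + u) = j + u by omega, ← hrep u hu, C.hP _ (by omega)]
    congr 2
    omega
  · right
    refine ⟨j - 2 * 2 ^ k, j - 1 - i, by omega, by omega, by omega, by omega, ?_, ?_⟩
    · rw [← C.he]
      rw [show 2 * 2 ^ k + (j - 1 - i) = j + (2 * 2 ^ k - 1 - i) by omega,
        ← hrep (2 * 2 ^ k - 1 - i) (by omega)]
      congr 1
      omega
    · intro x hx1 hx2
      rw [show 2 * 2 ^ k + x = j + (2 * 2 ^ k + x - j) by omega,
        ← hrep (2 * 2 ^ k + x - j) (by omega), C.hP _ (by omega)]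
      congr 1
      apply P_eq_of_add (by omega) (by omega)
      rw [show i + (2 * 2 ^ k + x - j) + 1 + (j - 1 - i - x) = 2 * 2 ^ k by omega]
      exact Dvd.intro_left 2 rfl

/-- the letter `L (k+1)` does not reappear soon -/
theorem Ctx.noE (C : Ctx y k L) (x : ℕ) (hx : x < 2 * 2 ^ k - 1) :
    y (2 * 2 ^ k + x) ≠ L (k + 1) := by
  classical
  have hN : 0 < 2 ^ k := by positivity
  by_contra hc
  have hex : ∃ q, y (2 * 2 ^ k + q) = L (k + 1) := ⟨x, hc⟩
  obtain ⟨q, hq, hmin⟩ : ∃ q, y (2 * 2 ^ k + q) = L (k + 1) ∧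
      ∀ z < q, y (2 * 2 ^ k + z) ≠ L (k + 1) :=
    ⟨Nat.find hex, Nat.find_spec hex, fun z hz => Nat.find_min hex hz⟩
  have hqx : q ≤ x := by
    by_contra hcc
    push Not at hcc
    exact hmin x hcc hc
  have hqN : 2 ^ k ≤ q := by
    by_contra hcc
    push Not at hcc
    rcases C.constraint 0 (by omega) with ⟨t, i, h1, h2, h3⟩ | ⟨s, q', h1, h2, _⟩
    · have := h3 (q - t) (by omega)
      rw [show t + (q - t) = q by omega, hq] at this
      exact C.ne' this.symm
    · omega
  rcases C.constraint (q + 1 - 2 ^ k) (by omega) with ⟨t, i, h1, h2, h3⟩ |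
      ⟨s, q', h1, h2, h3, h4, h5, h6⟩
  · have h7 : t ≤ q := by omega
    have := h3 (q - t) (by omega)
    rw [show t + (q - t) = q by omega, hq] at this
    exact C.ne' this.symm
  · have h7 : s ≤ q := by omega
    have := h6 q h7 (by omega)
    rw [hq] at this
    exact C.ne' this.symm

/-- agreement with a rotation of the periodic word -/
def Ag (y : ℕ → α) (k : ℕ) (L : ℕ → α) (r M : ℕ) : Prop :=
  ∀ x < M, y (2 * 2 ^ k + x) = L (P k (r + 1 + x))

theorem Ctx.notAg (C : Ctx y k L) (r : ℕ) : ¬ Ag y k L r (2 * 2 ^ k) := by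
  intro h
  have hN : 0 < 2 ^ k := by positivity
  obtain ⟨u, hu, hne⟩ := C.sq (2 * 2 ^ k) (2 ^ k) hN
  apply hne
  rw [h u (by omega), show 2 * 2 ^ k + 2 ^ k + u = 2 * 2 ^ k + (2 ^ k + u) by omega,
    h (2 ^ k + u) (by omega)]
  congr 1
  rw [show r + 1 + (2 ^ k + u) = 2 ^ k + (r + 1 + u) by omega]
  rw [P_shift (by omega) (dvd_refl _)]

theorem Ctx.lt_of_Ag (C : Ctx y k L) {r M : ℕ} (h : Ag y k L r M) : M < 2 * 2 ^ k := by
  by_contra hc
  push Not at hc
  exact C.notAg r (fun x hx => h x (by omega))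

/-- small square around a place where the pattern of the small letters continues -/
theorem Ctx.no_small_square (C : Ctx y k L) {h w a b : ℕ} (hB : 2 ^ h ≤ w) (ha : 2 ^ h ∣ a)
    (hb : 2 ^ h ∣ b)
    (h0 : y (2 * 2 ^ k + (w - 2 ^ h)) = y (2 * 2 ^ k + w))
    (h1 : ∀ u, 0 < u → u < 2 ^ h → y (2 * 2 ^ k + (w - 2 ^ h + u)) = L (P k (a + u)))
    (h2 : ∀ u, 0 < u → u < 2 ^ h → y (2 * 2 ^ k + (w + u)) = L (P k (b + u)) ∨
      (2 ^ h ≤ b ∧ y (2 * 2 ^ k + (w + u)) = L (P k (b - u)))) : False := by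
  obtain ⟨u, hu, hne⟩ := C.sq (2 * 2 ^ k + (w - 2 ^ h)) (2 ^ h) (by positivity)
  apply hne
  rw [show 2 * 2 ^ k + (w - 2 ^ h) + 2 ^ h + u = 2 * 2 ^ k + (w + u) by omega, add_assoc]
  rcases Nat.eq_zero_or_pos u with h3 | h3
  · subst h3
    simpa using h0
  · have h4 : ¬ 2 ^ h ∣ u := fun h5 => by
      have := Nat.le_of_dvd h3 h5
      omega
    rw [h1 u h3 hu, P_shift' h3 ha h4]
    rcases h2 u h3 hu with h5 | ⟨h6, h5⟩
    · rw [h5, P_shift' h3 hb h4]
    · rw [h5]
      congr 1
      apply P_eq_of_add' h3 (by omega) _ h4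
      rw [show u + (b - u) = b by omega]
      exact hb

/-- one step of the extension of the agreement -/
theorem Ctx.step (C : Ctx y k L) {r m : ℕ} (hr : r < 2 ^ k) (hm : 0 < m) (hmk : m < 2 ^ k)
    (hag : Ag y k L r (2 ^ k + m - 1)) (hrm : r = 0 ∨ m ≤ r ∨ m ≤ 2 ^ k - r) :
    (∃ t i, i + m + 1 ≤ 2 ^ k ∧ t + 2 ^ k + m < 2 * 2 ^ k ∧ 2 ^ k ∣ 2 ^ k + r + t - i ∧
      Ag y k L r (t + 2 ^ k + m)) ∨ (r = 0 ∧ Ag y k L r (2 * 2 ^ k - 1)) := by
  have hN : 0 < 2 ^ k := by positivity
  rcases C.constraint m hmk with ⟨t, i, ht, hi, hA⟩ | ⟨s, q, hs0, hs, hq, hqs, hqe, hB⟩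
  · left
    by_cases hD : 2 ^ k ∣ 2 ^ k + r + t - i
    · have hag2 : Ag y k L r (t + 2 ^ k + m) := by
        intro x hx
        rcases Nat.lt_or_ge x (2 ^ k + m - 1) with h1 | h1
        · exact hag x h1
        · have h2 := hA (x - t) (by omega)
          rw [show t + (x - t) = x by omega] at h2
          rw [h2]
          congr 1
          rw [← P_shift (c := 2 ^ k + r + t - i) (by omega) hD,
            ← P_shift (k := k) (a := r + 1 + x) (c := 2 ^ k) (by omega) (dvd_refl _)]
          congr 1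
          omega
      exact ⟨t, i, hi, C.lt_of_Ag hag2, hD, hag2⟩
    · exfalso
      obtain ⟨h, hhk, hd1, hd2⟩ := exists_h hD
      have hBk : 2 ^ (h + 1) ∣ 2 ^ k := pow_dvd_pow 2 hhk
      have hBk' : 2 ^ h ∣ 2 ^ k := pow_dvd_pow 2 hhk.le
      have h2B : 2 * 2 ^ h ≤ 2 ^ k := by
        have := Nat.le_of_dvd hN hBk
        rw [pow_succ] at this
        omega
      have hBpos : 0 < 2 ^ h := by positivity
      -- relation between the two phases
      have hrel : ∀ x, t ≤ x → (x + (r + 1)) + 2 ^ k =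
          (x - t + i + 1) + (2 ^ k + r + t - i) := by
        intro x hx
        omega
      have hiff : ∀ x, t ≤ x → (2 ^ h ∣ x + (r + 1) ↔ 2 ^ h ∣ x - t + i + 1) := by
        intro x hx
        have h3 : 2 ^ h ∣ x + (r + 1) + 2 ^ k ↔ 2 ^ h ∣ x + (r + 1) := Nat.dvd_add_left hBk'
        rw [← h3, hrel x hx, Nat.dvd_add_left hd1]
      have hpar : ∀ x, t ≤ x → 2 ^ h ∣ x + (r + 1) →
          (2 ^ (h + 1) ∣ x + (r + 1) ∧ ¬ 2 ^ (h + 1) ∣ x - t + i + 1) ∨
          (¬ 2 ^ (h + 1) ∣ x + (r + 1) ∧ 2 ^ (h + 1) ∣ x - t + i + 1) := by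
        intro x hx hdx
        have h3 := (hiff x hx).1 hdx
        by_cases h4 : 2 ^ (h + 1) ∣ x - t + i + 1
        · right
          refine ⟨?_, h4⟩
          intro h5
          apply hd2
          have h6 : 2 ^ (h + 1) ∣ (x - t + i + 1) + (2 ^ k + r + t - i) := by
            rw [← hrel x hx]
            exact dvd_add h5 hBk
          exact (Nat.dvd_add_right h4).1 h6
        · left
          refine ⟨?_, h4⟩
          have h6 : ¬ 2 ^ (h + 1) ∣ 2 ^ k + r + t - i := hd2
          have h7 : 2 ^ (h + 1) ∣ (x - t + i + 1) + (2 ^ k + r + t - i) :=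
            both h3 hd1 h4 h6
          rw [← hrel x hx] at h7
          exact (Nat.dvd_add_left hBk).1 h7
      obtain ⟨w, hw1, hw2, hw3, hw4⟩ := next_mult hBpos t (r + 1)
      have hTw : ∀ x, t ≤ x → x < t + (2 ^ k + m) →
          y (2 * 2 ^ k + x) = L (P k (x - t + i + 1)) := by
        intro x hx1 hx2
        have h3 := hA (x - t) (by omega)
        rw [show t + (x - t) = x by omega] at h3
        rw [h3]
        congr 2
        omega
      have hwM : 2 ^ k + m - 1 ≤ w := by
        by_contra hc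
        push Not at hc
        have h3 := hag w hc
        rw [hTw w hw1 (by omega)] at h3
        have h4 := hpar w hw1 hw3
        rcases h4 with ⟨h5, h6⟩ | ⟨h5, h6⟩
        · exact C.ne (P_ne (k := k) (by omega) (by omega) hhk
            (by rwa [show r + 1 + w = w + (r + 1) by omega]) h6) h3.symm
        · exact C.ne (P_ne (k := k) (by omega) (by omega) hhk h6
            (by rwa [show r + 1 + w = w + (r + 1) by omega])) h3
      have hagw : Ag y k L r w := by
        intro x hx
        rcases Nat.lt_or_ge x (2 ^ k + m - 1) with h3 | h3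
        · exact hag x h3
        · have hxt : t ≤ x := by omega
          rw [hTw x hxt (by omega)]
          congr 1
          have h4 := hw4 x hxt hx
          have h5 : ¬ 2 ^ h ∣ x - t + i + 1 := fun h6 => h4 ((hiff x hxt).2 h6)
          rw [← P_shift' (k := k) (by omega) hd1 h5,
            ← P_shift (k := k) (a := r + 1 + x) (c := 2 ^ k) (by omega) (dvd_refl _)]
          congr 1
          have := hrel x hxt
          omega
      have hi2 : 2 ^ h = w - t + i + 1 := by
        have h3 := (hiff w hw1).1 hw3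
        have h4 := Nat.le_of_dvd (by omega) h3
        by_contra hc
        have h5 : 2 ^ h ∣ w - t + i + 1 - 2 ^ h := Nat.dvd_sub h3 (dvd_refl _)
        have h6 := Nat.le_of_dvd (by omega) h5
        omega
      have hodd : ¬ 2 ^ (h + 1) ∣ w - t + i + 1 := by
        rw [← hi2]
        intro h3
        have := Nat.le_of_dvd hBpos h3
        rw [pow_succ] at this
        omega
      have hev : 2 ^ (h + 1) ∣ w + (r + 1) := by
        rcases hpar w hw1 hw3 with h3 | h3
        · exact h3.1
        · exact absurd h3.2 hodd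
      have hwB : 2 ^ h ≤ w := by omega
      have hdw : 2 ^ h ∣ w - 2 ^ h + (r + 1) := by
        rw [show w - 2 ^ h + (r + 1) = w + (r + 1) - 2 ^ h by omega]
        exact Nat.dvd_sub hw3 (dvd_refl _)
      have hndw : ¬ 2 ^ (h + 1) ∣ w - 2 ^ h + (r + 1) := by
        intro h3
        have h4 : 2 ^ (h + 1) ∣ (w - 2 ^ h + (r + 1)) + 2 ^ h := by
          rw [show w - 2 ^ h + (r + 1) + 2 ^ h = w + (r + 1) by omega]
          exact hev
        have h5 := (Nat.dvd_add_right h3).1 h4
        have := Nat.le_of_dvd hBpos h5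
        rw [pow_succ] at this
        omega
      apply C.no_small_square (h := h) (w := w) (a := w - 2 ^ h + (r + 1)) (b := 2 ^ h) hwB hdw
        (dvd_refl _)
      · rw [hagw (w - 2 ^ h) (by omega), hTw w hw1 (by omega)]
        rw [P_exact (h := h) (by omega) hhk (by rw [← hi2]) hodd,
          P_exact (h := h) (by omega) hhk
            (by rwa [show r + 1 + (w - 2 ^ h) = w - 2 ^ h + (r + 1) by omega])
            (by rwa [show r + 1 + (w - 2 ^ h) = w - 2 ^ h + (r + 1) by omega])]
      · intro u hu1 hu2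
        rw [hagw _ (by omega)]
        congr 2
        omega
      · intro u hu1 hu2
        left
        rw [hTw _ (by omega) (by omega)]
        congr 2
        omega
  · have hq2 : 2 * 2 ^ k - 1 ≤ q := by
      by_contra hc
      push Not at hc
      exact C.noE q hc hqe
    by_cases hS : 2 ^ k ∣ q + (r + 1)
    · right
      have hag2 : Ag y k L r q := by
        intro x hx
        rcases Nat.lt_or_ge x (2 ^ k + m - 1) with h1 | h1
        · exact hag x h1
        · rw [hB x (by omega) hx]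
          congr 1
          apply P_eq_of_add (by omega) (by omega)
          rw [show q - x + (r + 1 + x) = q + (r + 1) by omega]
          exact hS
      have hq3 := C.lt_of_Ag hag2
      have hq4 : q = 2 * 2 ^ k - 1 := by omega
      subst hq4
      refine ⟨?_, hag2⟩
      rw [show 2 * 2 ^ k - 1 + (r + 1) = 2 * 2 ^ k + r by omega] at hS
      have h5 := (Nat.dvd_add_right (Dvd.intro_left 2 rfl)).1 hS
      exact Nat.eq_zero_of_dvd_of_lt h5 hr
    · exfalso
      obtain ⟨h, hhk, hd1, hd2⟩ := exists_h hS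
      have hBk : 2 ^ (h + 1) ∣ 2 ^ k := pow_dvd_pow 2 hhk
      have hBk' : 2 ^ h ∣ 2 ^ k := pow_dvd_pow 2 hhk.le
      have hB2k : 2 ^ h ∣ 2 * 2 ^ k := hBk'.mul_left 2
      have h2B : 2 * 2 ^ h ≤ 2 ^ k := by
        have := Nat.le_of_dvd hN hBk
        rw [pow_succ] at this
        omega
      have hBpos : 0 < 2 ^ h := by positivity
      have hsum : ∀ x, x ≤ q → (x + (r + 1)) + (q - x) = q + (r + 1) := by
        intro x hx
        omega
      have hiff : ∀ x, x ≤ q → (2 ^ h ∣ x + (r + 1) ↔ 2 ^ h ∣ q - x) := by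
        intro x hx
        rw [← hsum x hx] at hd1
        constructor
        · intro h3
          exact (Nat.dvd_add_right h3).1 hd1
        · intro h3
          exact (Nat.dvd_add_left h3).1 hd1
      obtain ⟨w, hw1, hw2, hw3, hw4⟩ := next_mult hBpos s (r + 1)
      have hwq : w ≤ q := by
        by_contra hc
        push Not at hc
        exact hw4 q (by omega) hc hd1
      have hwM : 2 ^ k + m - 1 ≤ w := by
        by_contra hc
        push Not at hc
        have h3 := hag w hc
        rw [hB w hw1 (by omega)] at h3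
        have h4 := (hiff w hwq).1 hw3
        have h5 : ¬ 2 ^ (h + 1) ∣ (w + (r + 1)) + (q - w) := by
          rw [hsum w hwq]; exact hd2
        rcases split hw3 h4 h5 with ⟨h6, h7⟩ | ⟨h6, h7⟩
        · exact C.ne (P_ne (k := k) (by omega) (by omega) hhk
            (by rwa [show r + 1 + w = w + (r + 1) by omega]) h7) h3.symm
        · exact C.ne (P_ne (k := k) (by omega) (by omega) hhk h7
            (by rwa [show r + 1 + w = w + (r + 1) by omega])) h3
      have hagw : Ag y k L r w := by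
        intro x hx
        rcases Nat.lt_or_ge x (2 ^ k + m - 1) with h3 | h3
        · exact hag x h3
        · rw [hB x (by omega) (by omega)]
          congr 1
          have h4 := hw4 x (by omega) hx
          symm
          apply P_eq_of_add' (h := h) (by omega) (by omega)
          · rw [show r + 1 + x + (q - x) = q + (r + 1) by omega]
            exact hd1
          · rwa [show r + 1 + x = x + (r + 1) by omega]
      have hw2N := C.lt_of_Ag hagw
      rcases Nat.lt_or_ge w q with hlt | hge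
      · have h4 := (hiff w hwq).1 hw3
        have h5 : ¬ 2 ^ (h + 1) ∣ (w + (r + 1)) + (q - w) := by
          rw [hsum w hwq]; exact hd2
        rcases split hw3 h4 h5 with ⟨h6, h7⟩ | ⟨h6, h7⟩
        · -- odd multiple before the end: small square
          have hwB : 2 ^ h ≤ w := by omega
          have hdw : 2 ^ h ∣ w - 2 ^ h + (r + 1) := by
            rw [show w - 2 ^ h + (r + 1) = w + (r + 1) - 2 ^ h by omega]
            exact Nat.dvd_sub hw3 (dvd_refl _)
          have hndw : ¬ 2 ^ (h + 1) ∣ w - 2 ^ h + (r + 1) := by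
            intro h8
            have h9 : 2 ^ (h + 1) ∣ (w - 2 ^ h + (r + 1)) + 2 ^ h := by
              rw [show w - 2 ^ h + (r + 1) + 2 ^ h = w + (r + 1) by omega]
              exact h6
            have h10 := (Nat.dvd_add_right h8).1 h9
            have := Nat.le_of_dvd hBpos h10
            rw [pow_succ] at this
            omega
          have hqw : 2 ^ h ≤ q - w := Nat.le_of_dvd (by omega) h4
          apply C.no_small_square (h := h) (w := w) (a := w - 2 ^ h + (r + 1)) (b := q - w) hwB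
            hdw h4
          · rw [hagw (w - 2 ^ h) (by omega), hB w hw1 hlt]
            rw [P_exact (h := h) (by omega) hhk h4 h7,
              P_exact (h := h) (by omega) hhk
                (by rwa [show r + 1 + (w - 2 ^ h) = w - 2 ^ h + (r + 1) by omega])
                (by rwa [show r + 1 + (w - 2 ^ h) = w - 2 ^ h + (r + 1) by omega])]
          · intro u hu1 hu2
            rw [hagw _ (by omega)]
            congr 2
            omega
          · intro u hu1 hu2
            right
            refine ⟨hqw, ?_⟩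
            rw [hB _ (by omega) (by omega)]
            congr 2
            omega
        · -- even multiple
          have hqw : 2 * 2 ^ h ≤ q - w := by
            have := Nat.le_of_dvd (by omega) h7
            rw [pow_succ] at this
            omega
          have hδ1 : (q + (r + 1)) % 2 ^ k < 2 ^ k := Nat.mod_lt _ hN
          have hδ0 : 0 < (q + (r + 1)) % 2 ^ k := by
            rcases Nat.eq_zero_or_pos ((q + (r + 1)) % 2 ^ k) with h8 | h8
            · exact absurd (Nat.dvd_of_mod_eq_zero h8) hS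
            · exact h8
          have hδ2 := Nat.div_add_mod (q + (r + 1)) (2 ^ k)
          set δ := (q + (r + 1)) % 2 ^ k with hδ
          set c := (q + (r + 1)) / 2 ^ k with hc
          have hδ3 : q - w < δ := by
            by_contra hcc
            push Not at hcc
            obtain ⟨u, hu, hne⟩ := C.sq (2 * 2 ^ k + (w - δ)) δ hδ0
            apply hne
            have e1 : 2 * 2 ^ k + (w - δ) + u = 2 * 2 ^ k + (w - δ + u) := by omega
            have e2 : 2 * 2 ^ k + (w - δ) + δ + u = 2 * 2 ^ k + (w + u) := by omega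
            rw [e1, e2, hagw _ (by omega), hB (w + u) (by omega) (by omega)]
            congr 1
            apply P_eq_of_add (by omega) (by omega)
            rw [show r + 1 + (w - δ + u) + (q - (w + u)) = 2 ^ k * c by omega]
            exact Dvd.intro _ rfl
          -- the quotient is 2
          have hc2 : c = 2 := by
            have h8 : 2 ^ k * c < 3 * 2 ^ k := by omega
            have h9 : 2 ≤ c := by
              rw [hc, Nat.le_div_iff_mul_le hN]
              omega
            have h10 : c < 3 := by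
              by_contra hcc
              push Not at hcc
              have : 2 ^ k * 3 ≤ 2 ^ k * c := Nat.mul_le_mul_left _ hcc
              omega
            omega
          rw [hc2] at hδ2
          have hwr : 2 * 2 ^ k + 2 ^ h ≤ w + (r + 1) := by
            have h8 : 2 ^ h ∣ w + (r + 1) - 2 * 2 ^ k := Nat.dvd_sub hw3 hB2k
            have h9 := Nat.le_of_dvd (by omega) h8
            omega
          rcases hrm with h8 | h8 | h8
          · omega
          · omega
          · omega
      · have hwq' : w = q := by omega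
        have hq5 : q = 2 * 2 ^ k - 1 := by omega
        rw [hq5, show 2 * 2 ^ k - 1 + (r + 1) = 2 * 2 ^ k + r by omega] at hS hd1
        have hr0 : r ≠ 0 := by
          intro h0
          apply hS
          rw [h0]
          exact Dvd.intro_left 2 rfl
        have hBr : 2 ^ h ∣ r := (Nat.dvd_add_right hB2k).1 hd1
        have hBr2 : 2 ^ h ∣ 2 ^ k - r := Nat.dvd_sub hBk' hBr
        have h8 := Nat.le_of_dvd (by omega) hBr
        have h9 := Nat.le_of_dvd (by omega) hBr2
        rcases hrm with h10 | h10 | h10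
        · omega
        · omega
        · omega

end

end Pool.Agent.V11120.Rul
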