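import Pool.Agent.V11120.Rul.Core

/-!
# Squarefree words with small initial non-repetitive complexity: the induction
-/

set_option autoImplicit false

namespace Pool.Agent.V11120.Rul

variable {α : Type*} {y : ℕ → α} {k : ℕ} {L : ℕ → α}

theorem Ag.mono {r M M' : ℕ} (h : Ag y k L r M) (hM : M' ≤ M) : Ag y k L r M' :=
  fun x hx => h x (by omega)

/-- the rotation is trivial, and the agreement is as long as possible -/
theorem Ctx.final (C : Ctx y k L) : Ag y k L 0 (2 * 2 ^ k - 1) := by
  have hN : 0 < 2 ^ k := by positivity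
  obtain ⟨r, hr, hag⟩ : ∃ r < 2 ^ k, Ag y k L r (2 ^ k) := by
    rcases C.constraint 0 hN with ⟨t, i, h1, h2, h3⟩ | ⟨s, q, h1, h2, _⟩
    · refine ⟨i, by omega, ?_⟩
      intro x hx
      have h4 : t = 0 := by omega
      subst h4
      have := h3 x (by omega)
      simpa using this
    · omega
  have hr0 : r = 0 := by
    by_contra hr0
    obtain ⟨m0, hm1, hm2, hm3, hm4⟩ : ∃ m0, r ≤ m0 ∧ 2 ^ k - r ≤ m0 ∧ m0 < 2 ^ k ∧
        (m0 = r ∨ m0 = 2 ^ k - r) := by
      rcases le_total r (2 ^ k - r) with h | h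
      · exact ⟨2 ^ k - r, h, le_rfl, by omega, Or.inr rfl⟩
      · exact ⟨r, le_rfl, h, hr, Or.inl rfl⟩
    have hstep : ∀ m, m ≤ m0 → Ag y k L r (2 ^ k + m) := by
      intro m
      induction m with
      | zero => intro _; simpa using hag
      | succ m ih =>
        intro hm
        rcases C.step hr (Nat.succ_pos m) (by omega) (by simpa using ih (by omega))
          (by omega) with ⟨t, i, _, _, _, h⟩ | ⟨h, _⟩
        · exact h.mono (by omega)
        · exact absurd h hr0
    have hm00 : 0 < m0 := by omega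
    rcases C.step hr hm00 hm3 ((hstep (m0 - 1) (by omega)).mono (by omega)) (by omega) with
      ⟨t, i, h1, h2, h3, _⟩ | ⟨h, _⟩
    · obtain ⟨c, hc⟩ := h3
      rcases Nat.lt_or_ge c 1 with h4 | h4
      · have : c = 0 := by omega
        subst this
        omega
      · rcases Nat.lt_or_ge c 2 with h5 | h5
        · have : c = 1 := by omega
          subst this
          omega
        · have h6 : 2 ^ k * 2 ≤ 2 ^ k * c := Nat.mul_le_mul_left _ h5
          omega
    · exact hr0 h
  subst hr0
  have hstep : ∀ m, m < 2 ^ k → Ag y k L 0 (2 ^ k + m) := by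
    intro m
    induction m with
    | zero => intro _; simpa using hag
    | succ m ih =>
      intro hm
      rcases C.step hr (Nat.succ_pos m) hm (by simpa using ih (by omega)) (Or.inl rfl) with
        ⟨t, i, _, _, _, h⟩ | ⟨_, h⟩
      · exact h.mono (by omega)
      · exact h.mono (by omega)
  exact (hstep (2 ^ k - 1) (by omega)).mono (by omega)

theorem val_small {j c u : ℕ} (hu : 0 < u) (hu2 : u < 2 ^ j) (hc : 2 ^ j ∣ c) :
    padicValNat 2 (c + u) = padicValNat 2 u := by
  have h1 : ∀ h, 2 ^ h ∣ c + u ↔ 2 ^ h ∣ u := by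
    intro h
    rcases le_total h j with h2 | h2
    · exact Nat.dvd_add_right ((pow_dvd_pow 2 h2).trans hc)
    · constructor
      · intro h3
        have h4 : 2 ^ j ∣ u := (Nat.dvd_add_right hc).1 ((pow_dvd_pow 2 h2).trans h3)
        exact absurd (Nat.le_of_dvd hu h4) (by omega)
      · intro h3
        have h4 : 2 ^ j ∣ u := (pow_dvd_pow 2 h2).trans h3
        exact absurd (Nat.le_of_dvd hu h4) (by omega)
  apply le_antisymm
  · rw [← padicValNat_dvd_iff_le hu.ne', ← h1, padicValNat_dvd_iff_le (by omega)]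
  · rw [← padicValNat_dvd_iff_le (by omega), h1, padicValNat_dvd_iff_le hu.ne']

theorem val_sub {j n : ℕ} (h : j < n) : padicValNat 2 (2 ^ n - 2 ^ j) = j := by
  have h1 : 2 ^ n - 2 ^ j = 2 ^ j * (2 ^ (n - j) - 1) := by
    rw [Nat.mul_sub, ← pow_add, Nat.mul_one]
    congr 2
    omega
  have h2 : 2 ^ (n - j) - 1 ≠ 0 := by
    have : 2 ^ 1 ≤ 2 ^ (n - j) := Nat.pow_le_pow_right (by norm_num) (by omega)
    omega
  rw [h1, padicValNat.mul (by positivity) h2, padicValNat.prime_pow,
    padicValNat.eq_zero_of_not_dvd, Nat.add_zero]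
  intro h3
  have h4 : 2 ∣ 2 ^ (n - j) := dvd_pow_self 2 (by omega)
  omega

/-- **Main theorem**: the structure of the word. -/
theorem structure_thm (y : ℕ → α)
    (sq : ∀ i p, 0 < p → ∃ u < p, y (i + u) ≠ y (i + p + u))
    (rep : ∀ n, 0 < n → ∃ i j, i < j ∧ j ≤ 2 * n ∧ ∀ u < n, y (i + u) = y (j + u)) (k : ℕ) :
    Ctx y k (fun a => y (2 ^ a - 1)) := by
  induction k with
  | zero =>
    refine ⟨sq, rep, ?_, ?_⟩
    · intro a ha b hb hab
      obtain ⟨u, hu, hne⟩ := sq 0 1 one_pos
      have hu0 : u = 0 := by omega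
      subst hu0
      simp only [Nat.zero_add, Nat.add_zero] at hne
      have ha' : a = 0 ∨ a = 1 := by omega
      have hb' : b = 0 ∨ b = 1 := by omega
      rcases ha' with rfl | rfl <;> rcases hb' with rfl | rfl
      · rfl
      · exact absurd (by simpa using hab) hne
      · exact absurd (by simpa using hab.symm) hne
      · rfl
    · intro x hx
      have hx' : x = 0 ∨ x = 1 := by omega
      rcases hx' with rfl | rfl
      · simp
      · have : padicValNat 2 (1 + 1) = 1 := by
          have := val_pow 1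
          simpa using this
        simp [this]
  | succ k C =>
    have hN : 0 < 2 ^ k := by positivity
    have hNN : 2 ^ (k + 1) = 2 * 2 ^ k := by rw [pow_succ]; omega
    have hag := C.final
    have hy : ∀ x < 2 * 2 ^ (k + 1), y x = y (2 ^ padicValNat 2 (x + 1) - 1) := by
      intro x hx
      rcases Nat.lt_or_ge x (2 * 2 ^ k) with h1 | h1
      · exact C.hy x h1
      · rcases Nat.lt_or_ge x (4 * 2 ^ k - 1) with h2 | h2
        · have h3 := hag (x - 2 * 2 ^ k) (by omega)
          rw [show 2 * 2 ^ k + (x - 2 * 2 ^ k) = x by omega,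
            P_of_lt (by omega) (by omega)] at h3
          rw [h3]
          show y (2 ^ _ - 1) = _
          congr 3
          rw [show x + 1 = 2 ^ (k + 1) + (0 + 1 + (x - 2 * 2 ^ k)) by omega]
          rw [val_small (j := k + 1) (by omega) (by omega) (dvd_refl _)]
        · have h3 : x + 1 = 2 ^ (k + 2) := by
            rw [pow_succ, hNN]; omega
          rw [h3, val_pow, ← h3]
          rfl
    refine ⟨sq, rep, ?_, hy⟩
    have key : ∀ j, j ≤ k + 1 → y (2 ^ (k + 2) - 1) ≠ y (2 ^ j - 1) := by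
      intro j hj he
      have h4 : 2 ^ (k + 2) = 4 * 2 ^ k := by rw [pow_succ, hNN]; omega
      have h5 : 2 ^ (j + 1) ≤ 2 ^ (k + 2) := Nat.pow_le_pow_right (by norm_num) (by omega)
      have h6 : 2 ^ (j + 1) = 2 * 2 ^ j := by rw [pow_succ]; omega
      have h7 : 0 < 2 ^ j := by positivity
      obtain ⟨u, hu, hne⟩ := sq (2 ^ (k + 2) - 2 ^ (j + 1)) (2 ^ j) h7
      apply hne
      have hd1 : 2 ^ j ∣ 2 ^ (k + 2) - 2 ^ (j + 1) :=
        Nat.dvd_sub (pow_dvd_pow 2 (by omega)) (pow_dvd_pow 2 (by omega))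
      have hd2 : 2 ^ j ∣ 2 ^ (k + 2) - 2 ^ (j + 1) + 2 ^ j := dvd_add hd1 (dvd_refl _)
      rcases Nat.lt_or_ge (u + 1) (2 ^ j) with h8 | h8
      · rw [hy (2 ^ (k + 2) - 2 ^ (j + 1) + u) (by omega),
          hy (2 ^ (k + 2) - 2 ^ (j + 1) + 2 ^ j + u) (by omega)]
        congr 3
        rw [add_assoc, val_small (by omega) h8 hd1, add_assoc _ u 1,
          val_small (by omega) h8 hd2]
      · have h9 : 2 ^ (k + 2) - 2 ^ (j + 1) + u = 2 ^ (k + 2) - 2 ^ j - 1 := by omega
        have h10 : 2 ^ (k + 2) - 2 ^ (j + 1) + 2 ^ j + u = 2 ^ (k + 2) - 1 := by omega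
        rw [h9, h10, he, hy _ (by omega),
          show 2 ^ (k + 2) - 2 ^ j - 1 + 1 = 2 ^ (k + 2) - 2 ^ j by omega, val_sub (by omega)]
    intro a ha b hb hab
    rcases Nat.lt_or_ge (k + 1) a with h1 | h1
    · rcases Nat.lt_or_ge (k + 1) b with h2 | h2
      · omega
      · have h3 : a = k + 2 := by omega
        subst h3
        exact absurd hab (key b h2)
    · rcases Nat.lt_or_ge (k + 1) b with h2 | h2
      · have h3 : b = k + 2 := by omega
        subst h3
        exact absurd hab.symm (key a h1)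
      · exact C.inj a h1 b h2 hab

theorem word_eq (y : ℕ → α)
    (sq : ∀ i p, 0 < p → ∃ u < p, y (i + u) ≠ y (i + p + u))
    (rep : ∀ n, 0 < n → ∃ i j, i < j ∧ j ≤ 2 * n ∧ ∀ u < n, y (i + u) = y (j + u)) :
    ∃ L : ℕ → α, Function.Injective L ∧ ∀ x, y x = L (padicValNat 2 (x + 1)) := by
  refine ⟨fun a => y (2 ^ a - 1), ?_, ?_⟩
  · intro a b hab
    exact (structure_thm y sq rep (max a b)).inj a (by omega) b (by omega) hab
  · intro x
    apply (structure_thm y sq rep x).hy
    have : x < 2 ^ x := Nat.lt_two_pow_self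
    omega

end Pool.Agent.V11120.Rul
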